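import Mathlib
import Pool.Agent.Lib_helper77.SAL.Salem

/-!
Let `β` be a Salem number of degree `d` and `x` a point of its field in `[0, 1)`. If the
beta-expansion of `x` is not eventually periodic, then at least `c * β ^ (l / (d - 2))` different
blocks of length `l` occur in it.
-/

set_option autoImplicit false

theorem Pool.Agent.Results.MP_ea5d9d_nt.BlockComplexity.result (β : ℝ) (hint : IsIntegral ℤ β)
    (hβ : 1 < β) (hc : ∀ z ∈ (minpoly ℚ β).aroots ℂ, z ≠ (β : ℂ) → ‖z‖ ≤ 1)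
    (hs : ∃ z ∈ (minpoly ℚ β).aroots ℂ, ‖z‖ = 1)
    (x : ℝ) (hx : x ∈ IntermediateField.adjoin ℚ ({β} : Set ℝ)) (h0 : 0 ≤ x) (h1 : x < 1) :
    (∃ m n : ℕ, 0 < n ∧ (fun y : ℝ => Int.fract (β * y))^[m + n] x =
      (fun y : ℝ => Int.fract (β * y))^[m] x) ∨
    ∃ c : ℝ, 0 < c ∧ ∀ l : ℕ,
      c * β ^ ((l : ℝ) / ((minpoly ℚ β).natDegree - 2)) ≤
        ((Pool.Agent.Lib_helper77.SAL.blocks β x l).ncard : ℝ) :=
  Pool.Agent.Lib_helper77.SAL.main β hint hβ hc hs x hx h0 h1
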