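import Mathlib
import Pool.Agent.Lib_helper95.SR.Backward

/-!
A real number `β > 1` is a Pisot or a Salem number if and only if there are rounding rules for the
multiplication by `β`, equal to the beta-transformation at all points of the field with conjugates
up to any given size, for which all points of the field have eventually periodic orbits.
-/

set_option autoImplicit false

theorem Pool.Agent.Results.MP_ea5d9d_nt.RoundingRules.result (β : ℝ) (hβ : 1 < β) :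
    (IsIntegral ℤ β ∧ ∀ z ∈ (minpoly ℚ β).aroots ℂ, z ≠ (β : ℂ) → ‖z‖ ≤ 1) ↔
    ∀ R : ℝ, ∃ T : ℝ → ℝ, (∀ y : ℝ, T y = β * y - ⌊β * y⌋ ∨ T y = β * y - ⌈β * y⌉) ∧
      (∀ y ∈ IntermediateField.adjoin ℚ ({β} : Set ℝ), 0 ≤ y → y < 1 →
        (∀ z ∈ (minpoly ℚ y).aroots ℂ, ‖z‖ ≤ R) → T y = Int.fract (β * y)) ∧
      (∀ x ∈ IntermediateField.adjoin ℚ ({β} : Set ℝ), 0 ≤ x → x < 1 →
        ∃ m n : ℕ, 0 < n ∧ T^[m + n] x = T^[m] x) ∧
      (∀ q : ℕ, 0 < q → {y : ℝ | y ∈ IntermediateField.adjoin ℚ ({β} : Set ℝ) ∧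
        IsIntegral ℤ ((q : ℝ) * y) ∧ ∃ n : ℕ, 0 < n ∧ T^[n] y = y}.Finite) := by
  constructor
  · rintro ⟨hint, hc⟩ R
    exact Pool.Agent.Lib_helper95.SR.forward β hβ hint hc R
  · intro h
    obtain ⟨T, hT, _, hper, _⟩ := h 0
    exact Pool.Agent.Lib_helper95.SR.backward β hβ T hT hper
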